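import Pool.Agent.H92.EM.TA
import Pool.Agent.H14.EQ.TZ

/-!
# Board emd_modules (MP_75a732_an), row MTZ
-/

set_option autoImplicit false

namespace Pool.Agent.H1.EMD

open scoped BigOperators ComplexConjugate ContDiff ComplexOrder
open MeasureTheory
open Pool.Agent.H92.EQ Pool.Agent.H92.EM
open Pool.Agent.H14.EQ (dl haar1 haar2 pair_zero)

theorem rep_ap {N : ℕ} (X : Fin N → Fin N → ℂ) (i j a b : Fin N) (t : ℂ) :
    rep X i j t a b = if a = i ∧ b = j then t else X a b := by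
  unfold rep
  by_cases ha : a = i
  · subst ha
    by_cases hb : b = j
    · subst hb
      simp
    · simp [hb]
  · simp [ha]

theorem one_dl {N : ℕ} (a b : Fin N) :
    (1 : Matrix (Fin N) (Fin N) ℂ) a b = dl N a b := by
  unfold dl
  rw [Matrix.one_apply]

theorem mX_ap {k : ℕ} (m : ℕ) (X : Fin (k + 1) → Fin (k + 1) → ℂ) (a b : Fin (k + 1)) :
    mX m X a b = if (a : ℕ) < m ∧ b ≠ a then 0 else dl (k + 1) a b + X a b := by
  unfold mX msk
  by_cases h : (a : ℕ) < m ∧ b ≠ a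
  · rw [if_pos h, if_pos h]
  · rw [if_neg h, if_neg h, Matrix.add_apply, one_dl]
    rfl

theorem mX_masked {k : ℕ} (m : ℕ) (X : Fin (k + 1) → Fin (k + 1) → ℂ) (i j : Fin (k + 1))
    (t : ℂ) (h : (i : ℕ) < m ∧ j ≠ i) : mX m (rep X i j t) = mX m X := by
  ext a b
  rw [mX_ap, mX_ap, rep_ap]
  by_cases h1 : a = i ∧ b = j
  · obtain ⟨rfl, rfl⟩ := h1
    rw [if_pos h, if_pos h]
  · rw [if_neg h1]

theorem mX_free {k : ℕ} (m : ℕ) (X : Fin (k + 1) → Fin (k + 1) → ℂ) (i j : Fin (k + 1))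
    (t : ℂ) (h : ¬ ((i : ℕ) < m ∧ j ≠ i)) :
    mX m (rep X i j t) =
      Matrix.of (rep (msk m (Matrix.of (dl (k + 1) + X))) i j (dl (k + 1) i j + t)) := by
  ext a b
  rw [mX_ap, rep_ap, Matrix.of_apply, rep_ap]
  by_cases h1 : a = i ∧ b = j
  · obtain ⟨rfl, rfl⟩ := h1
    rw [if_neg h, if_pos ⟨rfl, rfl⟩, if_pos ⟨rfl, rfl⟩]
  · rw [if_neg h1, if_neg h1]
    unfold msk
    rfl

theorem mX_eq {k : ℕ} (m : ℕ) (X : Fin (k + 1) → Fin (k + 1) → ℂ) :
    mX m X = msk m (Matrix.of (dl (k + 1) + X)) := by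
  ext a b
  rw [mX_ap]
  unfold msk
  rfl

theorem mX_cont (m k : ℕ) :
    Continuous fun X : Fin (k + 1) → Fin (k + 1) → ℂ =>
      (mX m X : Fin (k + 1) → Fin (k + 1) → ℂ) := by
  refine continuous_pi fun a => continuous_pi fun b => ?_
  simp only [mX_ap]
  split_ifs
  · exact continuous_const
  · exact continuous_const.add ((continuous_apply b).comp (continuous_apply a))

theorem fderiv_tr (f : ℂ → ℝ) (e : ℂ) :
    fderiv ℝ (fun t => f (t - e)) = fun t => fderiv ℝ f (t - e) := by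
  funext t
  exact fderiv_comp_sub e

theorem lapl_tr (f : ℂ → ℝ) (e t : ℂ) : lapl (fun t => f (t - e)) t = lapl f (t - e) := by
  unfold lapl
  have h1 : ∀ v : ℂ, (fun s => fderiv ℝ (fun t => f (t - e)) s v) =
      fun s => (fun r => fderiv ℝ f r v) (s - e) := by
    intro v
    funext s
    rw [fderiv_tr]
  rw [h1, h1, fderiv_tr (fun r => fderiv ℝ f r 1) e,
    fderiv_tr (fun r => fderiv ℝ f r Complex.I) e]

theorem pf_MTZ (hBU : T_MBU) (hTG : T_MTG) (hTI : Pool.Agent.H92.EHD.T_ETI) (hTJ : T_TJ)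
    (hTK : T_TK) (hTM : T_TM) (hTN : T_TN) (hL1 : T_L1) (hL6 : T_L6) : T_MTZ := by
  intro m k p q hmk hpq
  have hN : p + q + 1 = k + 1 := by omega
  obtain ⟨c0, hc0, hJ⟩ := hTJ
  obtain ⟨C, hC, hB1, hB2⟩ := hBU
  have hN0 : 0 < ((k + 1 : ℕ) : ℝ) := by
    exact_mod_cast Nat.succ_pos k
  refine ⟨((k + 1 : ℕ) : ℝ) ^ 2 * (2 * (C + 1) * (c0 * ((q + 1) * ((k + 1 : ℕ) : ℝ)))),
    by positivity, fun D Φ hD hΦ w w' u hw hw' hu S hS θ hθ hθ1 => ?_⟩
  have hhom : Hom0 (fun z => w z - w' z) := by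
    have h1 := (hL1 (k + 1) 1 1 1 (-1) w w').1 ((hL1 (k + 1) 1 1 1 1 w w).2.2.1 hw)
      ((hL1 (k + 1) 1 1 1 1 w' w').2.2.1 hw')
    have h2 : (fun z => (1 : ℝ) * w z + -1 * w' z) = fun z => w z - w' z := by
      funext z
      ring
    rw [h2] at h1
    refine (hL1 (k + 1) 0 0 0 0 (fun z => w z - w' z) w').2.1.2 ?_
    have h3 : (1 : ℝ) * 1 + -1 * 1 = 0 := by norm_num
    rwa [h3] at h1
  obtain ⟨B, hB, hBb⟩ := (hL6 (k + 1)).1 (fun z => w z - w' z) hhom.smooth.continuousOn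
    (fun r z hr hz => hhom.hom (r : ℂ) z (by exact_mod_cast hr.ne') hz)
  obtain ⟨hcont, hbd, -⟩ := hTN (k + 1) p q D Φ S (fun z => w z - w' z) u B hN hD hΦ hS hhom
    hu hBb
  have hD0 : 0 < (D : ℝ) := by exact_mod_cast hD
  have hmass : 0 ≤ mass q S := by
    have h1 := (abs_nonneg _).trans (hbd 1 (by simp))
    have h2 : 0 < B * (D : ℝ) ^ p := by positivity
    rw [← mul_assoc] at h1
    exact nonneg_of_mul_nonneg_right h1 h2
  have hth : 0 < th0 k := by
    unfold th0
    positivity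
  have hth1 : th0 k ≤ 1 := by
    unfold th0
    rw [div_le_one (by positivity)]
    have : (0 : ℝ) ≤ k := Nat.cast_nonneg k
    linarith
  have hlog0 : 0 ≤ Real.log (1 / θ) :=
    Real.log_nonneg (by rw [le_div_iff₀ hθ]; linarith)
  have hlog : 0 ≤ 1 + Real.log (1 / θ) := by linarith
  have hlog1 : Real.log (th0 k / θ) ≤ Real.log (1 / θ) :=
    Real.log_le_log (by positivity) (by gcongr)
  have hK : C + Real.log (th0 k / θ) ≤ (C + 1) * (1 + Real.log (1 / θ)) := by
    nlinarith [mul_nonneg hC.le hlog0]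
  set b : (Fin (k + 1) → Fin (k + 1) → ℂ) → ℝ :=
    fun X => am (fun z => w z - w' z) Φ S u (mX m X) with hb
  set A : ℝ := (q + 1) * ((k + 1 : ℕ) : ℝ) * ((D : ℝ) ^ p / D) * mass q S with hA
  have hA0 : 0 ≤ A := by positivity
  set M : ℝ := c0 * A with hM
  have hM0 : 0 ≤ M := by positivity
  obtain ⟨s1, s2, -, -, s5, s6⟩ := hB1 θ hθ
  obtain ⟨r1, r2, -, -, r5, r6⟩ := hB1 (th0 k) hth
  obtain ⟨ψ, p1, p2, -, p4, p5, p6, -⟩ := hB2 θ (th0 k) hθ hθ1
  have _ := haar2 (k + 1)
  have hqm : Measure.QuasiMeasurePreserving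
      (fun X : Fin (k + 1) → Fin (k + 1) → ℂ => dl (k + 1) + X) volume volume :=
    (measurePreserving_add_left volume (dl (k + 1))).quasiMeasurePreserving
  -- the derivative of the test function
  have hdc : HasCompactSupport (fderiv ℝ ψ) := p2.fderiv (𝕜 := ℝ)
  have hdcont : Continuous (fderiv ℝ ψ) := p1.continuous_fderiv (by simp)
  obtain ⟨K', hK'⟩ := hdc.exists_bound_of_continuous hdcont
  have hdint : Integrable (fun t => ‖fderiv ℝ ψ t‖) :=
    (hdcont.integrable_of_hasCompactSupport hdc).norm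
  -- one entry moves
  have key : ∀ i j : Fin (k + 1), ∀ᵐ X : Fin (k + 1) → Fin (k + 1) → ℂ,
      |∫ t, b (rep X i j t) * (bs θ t - bs (th0 k) t)| ≤
        2 * ((C + 1) * (1 + Real.log (1 / θ))) * M := by
    intro i j
    by_cases hij : (i : ℕ) < m ∧ j ≠ i
    · refine Filter.Eventually.of_forall fun X => ?_
      have h1 : ∀ t, b (rep X i j t) = b X := fun t => by
        simp only [hb, mX_masked m X i j t hij]
      simp only [h1]
      rw [integral_const_mul, integral_sub s5 r5, s6, r6, sub_self, mul_zero, abs_zero]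
      positivity
    have hij' : (i : ℕ) < m → j = i := fun h => by
      by_contra hne
      exact hij ⟨h, hne⟩
    filter_upwards [hqm.ae (hTG m k i j hmk hij')] with X hX
    obtain ⟨-, t1, C1, ht1⟩ := hX
    obtain ⟨F, F', C2, hm, hmc, hmc', hFc, hFc', hF, hF', hW, hW', hac, haW⟩ :=
      hTI (k + 1) p q D Φ S w w' u (msk m (Matrix.of (dl (k + 1) + X))) i j t1 C1 hN hD hΦ hS
        hw hw' hu (fun t ht => (ht1 t ht).1) (fun t ht => (ht1 t ht).2) _ _ rfl rfl
    generalize hmd : mT (pull (Pool.Agent.H14.EQ.GP Φ (msk m (Matrix.of (dl (k + 1) + X))) i j) S)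
        (fun l z => (Fin.cons w u : Fin (q + 1) → (Fin (k + 1) → ℂ) → ℝ) l (tl z)) = μ
      at hm hmc hW haW
    generalize hmd' : mT (pull (Pool.Agent.H14.EQ.GP Φ (msk m (Matrix.of (dl (k + 1) + X))) i j) S)
        (fun l z => (Fin.cons w' u : Fin (q + 1) → (Fin (k + 1) → ℂ) → ℝ) l (tl z)) = μ'
      at hm hmc' hW' haW
    have h1 := hJ t1 F μ A (max C2 0) hA0 (le_max_right _ _) hFc hmc (fun t ht => (hm t ht).1)
      (fun t ht => (hF t ht).trans (add_le_add_right (le_max_left _ _) _)) hW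
    have h2 := hJ t1 F' μ' A (max C2 0) hA0 (le_max_right _ _) hFc' hmc'
      (fun t ht => (hm t ht).2)
      (fun t ht => (hF' t ht).trans (add_le_add_right (le_max_left _ _) _)) hW'
    have hbe : ∀ t, b (rep X i j t) = am (fun z => w z - w' z) Φ S u (Matrix.of
        (rep (msk m (Matrix.of (dl (k + 1) + X))) i j (dl (k + 1) i j + t))) := fun t => by
      simp only [hb, mX_free m X i j t hij]
    simp only [hbe]
    have hab : ∀ t, t ≠ t1 → |am (fun z => w z - w' z) Φ S u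
        (Matrix.of (rep (msk m (Matrix.of (dl (k + 1) + X))) i j t))| ≤
          B * ((D : ℝ) ^ p * mass q S) := fun t ht =>
      hbd (Matrix.of (rep (msk m (Matrix.of (dl (k + 1) + X))) i j t)) (ht1 t ht).1
    generalize hag : (fun t => am (fun z => w z - w' z) Φ S u
      (Matrix.of (rep (msk m (Matrix.of (dl (k + 1) + X))) i j t))) = a at hac haW
    have hag' : ∀ t, am (fun z => w z - w' z) Φ S u
      (Matrix.of (rep (msk m (Matrix.of (dl (k + 1) + X))) i j t)) = a t := fun t => by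
      rw [← hag]
    simp only [hag'] at hab ⊢
    generalize dl (k + 1) i j = e
    have hch : ∫ t, a (e + t) * (bs θ t - bs (th0 k) t) =
        -∫ t, lapl (fun s => ψ (s - e)) t * a t := by
      rw [← integral_neg, ← integral_add_left_eq_self
        (fun t => -(lapl (fun s => ψ (s - e)) t * a t)) e]
      refine integral_congr_ae (Filter.Eventually.of_forall fun t => ?_)
      simp only [lapl_tr, add_sub_cancel_left, p4]
      ring
    rw [hch, abs_neg]
    refine hTK t1 a μ μ' (fun s => ψ (s - e)) _ M ((C + 1) * (1 + Real.log (1 / θ))) K' hac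
      hab hm hmc hmc' h1.1 h2.1 h1.2 h2.2 haW ?_ ?_ ?_ ?_ ?_
    · exact p1.comp (contDiff_id.sub contDiff_const)
    · intro t
      rw [abs_of_nonneg (p5 _)]
      exact (p6 _).trans hK
    · intro t
      rw [fderiv_tr]
      exact hK' _
    · rw [fderiv_tr]
      exact hdint.comp_sub_right e
    · have h3 : (fun t => lapl (fun s => ψ (s - e)) t) =
          fun t => (fun s => bs (th0 k) s - bs θ s) (t - e) := by
        funext t
        rw [lapl_tr, p4]
      rw [h3]
      exact (r5.sub s5).comp_sub_right e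
  have hae : ∀ᵐ X : Fin (k + 1) → Fin (k + 1) → ℂ, (mX m X).det ≠ 0 := by
    filter_upwards [hqm.ae (hTG m k 0 0 hmk (fun _ => rfl))] with X hX
    rw [mX_eq]
    exact hX.1
  have hmeas : AEStronglyMeasurable b := by
    have hopen : IsOpen {X : Fin (k + 1) → Fin (k + 1) → ℂ | (mX m X).det ≠ 0} := by
      have hc : Continuous fun X : Fin (k + 1) → Fin (k + 1) → ℂ => (mX m X).det :=
        Continuous.matrix_det (mX_cont m k)
      exact isOpen_ne_fun hc continuous_const
    have h0 : ContinuousOn b {X : Fin (k + 1) → Fin (k + 1) → ℂ | (mX m X).det ≠ 0} :=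
      hcont.comp (mX_cont m k).continuousOn fun X hX => hX
    have h1 := h0.aestronglyMeasurable (μ := volume) hopen.measurableSet
    have h2 : (volume : Measure (Fin (k + 1) → Fin (k + 1) → ℂ)).restrict
        {X : Fin (k + 1) → Fin (k + 1) → ℂ | (mX m X).det ≠ 0} = volume :=
      Measure.restrict_eq_self_of_ae_mem hae
    rwa [h2] at h1
  have hTM' := hTM (k + 1) b (fun _ _ t => bs θ t) (fun _ _ t => bs (th0 k) t)
    (B * ((D : ℝ) ^ p * mass q S)) (2 * ((C + 1) * (1 + Real.log (1 / θ))) * M)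
    (by positivity) hmeas
    (by filter_upwards [hae] with X hX using hbd _ hX)
    (fun i j => ⟨s1.continuous, r1.continuous, s2, r2, s5, r5, s6, r6⟩) key
  obtain ⟨k1, k2, k3⟩ := hTM'
  have hcm : ∀ (s : ℝ) (X : Fin (k + 1) → Fin (k + 1) → ℂ),
      bth s X * am (fun z => w z - w' z) Φ S u (mX m X) = b X * ∏ i, ∏ j, bs s (X i j) := by
    intro s X
    unfold bth
    exact mul_comm _ _
  simp only [hcm]
  refine ⟨k1, k3.trans (le_of_eq ?_)⟩
  rw [hM, hA]
  ring

end Pool.Agent.H1.EMD
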